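import Mathlib
import Pool.Agent.H21.FM.Inter
import Pool.Agent.H19.RH.Data4
import Pool.Agent.Q1.M4.Geo2
import Pool.Agent.Q1.M4.Limit4
import Pool.Agent.Q1.M4.DobPH

set_option autoImplicit false
open Filter Topology Set

/-! # Four marks: the limits of the three primitives satisfy `Data4`

`data4_of_lim`: three limits along one ultrafilter and the exact side identities `Tab` at the scales
`hs j` give the structure `Data4` of helper19 (for the limits divided by `1 - ph 2`). -/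

namespace Pool.Agent.H58.FM

open Pool.Agent.H75.Perc (dir dir_cases)
open Pool.Agent.Q1 (ph ph_ne ph_add)
open Pool.Agent.Q1.M4 (Cell PType tail head Reg Om lat inV inRect pt phase IsSide)
open Pool.Agent.H33.Q1 (wp)
open Pool.Agent.H21.FM

/-! ### Wall points -/

lemma tail_dir (s : Cell × ℤ) :
    (s.2 % 4 = 0 ∧ tail s = s.1 ∧ dir s.2 = (1, 0)) ∨
    (s.2 % 4 = 1 ∧ tail s = s.1 + (1, 0) ∧ dir s.2 = (0, 1)) ∨
    (s.2 % 4 = 2 ∧ tail s = s.1 + (1, 1) ∧ dir s.2 = (-1, 0)) ∨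
    (s.2 % 4 = 3 ∧ tail s = s.1 + (0, 1) ∧ dir s.2 = (0, -1)) := by
  rcases dir_cases s.2 with ⟨a, e⟩ | ⟨a, e⟩ | ⟨a, e⟩ | ⟨a, e⟩
  · left; exact ⟨a, by unfold tail; rw [if_pos a], e⟩
  · right; left; exact ⟨a, by unfold tail; rw [if_neg (by omega), if_pos a], e⟩
  · right; right; left
    exact ⟨a, by unfold tail; rw [if_neg (by omega), if_neg (by omega), if_pos a], e⟩
  · right; right; right
    exact ⟨a, by unfold tail; rw [if_neg (by omega), if_neg (by omega), if_neg (by omega)], e⟩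

lemma inG_wp (P : PType) (h : ℕ) (n : ℕ) {t : ℤ} (h0 : 0 ≤ t) (h1 : t ≤ 2 * h) :
    inG P h (wp (2 * h) (P.side n) t) := by
  have hs := P.side_isSide n
  refine ⟨(P.side n).1, hs.1, ?_⟩
  unfold inRect wp
  rcases tail_dir (P.side n) with ⟨_, e, f⟩ | ⟨_, e, f⟩ | ⟨_, e, f⟩ | ⟨_, e, f⟩ <;> rw [e, f] <;>
    simp only [Prod.fst_add, Prod.snd_add] <;> refine ⟨⟨?_, ?_⟩, ?_, ?_⟩ <;> nlinarith

lemma vert_succ (P : PType) (n : ℕ) : P.vert (n + 1) = tail (P.side n) + dir (P.side n).2 := by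
  have : P.side (n + 1) = Pool.Agent.Q1.M4.nextSide P.Q (P.side n) :=
    Function.iterate_succ_apply' _ _ _
  unfold PType.vert
  rw [this]
  exact Pool.Agent.Q1.M4.head_eq_tail_next _

lemma lat_wp (P : PType) {h : ℕ} (hh : 0 < h) (n : ℕ) (t : ℤ) :
    lat (wp (2 * h) (P.side n) t) / ((2 * (h : ℝ) : ℝ) : ℂ) =
      P.sidePt (fun i : ℤ => (i : ℝ)) (fun i : ℤ => (i : ℝ)) n ((t : ℝ) / (2 * h)) := by
  have hR : (2 * (h : ℝ)) ≠ 0 := by positivity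
  unfold PType.sidePt
  rw [vert_succ]
  unfold PType.vert pt wp lat
  apply Complex.ext
  · rw [Complex.div_ofReal_re]
    simp only [Complex.add_re, Complex.mul_re, Complex.ofReal_re, Complex.ofReal_im, Complex.sub_re,
      Prod.fst_add, zero_mul, sub_zero]
    push_cast
    field_simp
    ring
  · rw [Complex.div_ofReal_im]
    simp only [Complex.add_im, Complex.mul_im, Complex.ofReal_re, Complex.ofReal_im, Complex.sub_im,
      Prod.snd_add, zero_mul, add_zero]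
    push_cast
    field_simp
    ring

lemma sidePt_continuous (P : PType) (n : ℕ) :
    Continuous fun t : ℝ => P.sidePt (fun i : ℤ => (i : ℝ)) (fun i : ℤ => (i : ℝ)) n t := by
  unfold PType.sidePt
  fun_prop

/-! ### The limit of the increments -/

/-- the three increments -/
noncomputable def tri (h : ℕ) (s : Cell × ℤ) (H12 H23 H34 : ℤ × ℤ → ℂ) (a b : ℤ) : ℂ × ℂ × ℂ :=
  (incr h s H23 a b, incr h s H34 a b, incr h s H12 a b)

lemma tri_add (h : ℕ) (s : Cell × ℤ) (H12 H23 H34 : ℤ × ℤ → ℂ) (a b c : ℤ) :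
    tri h s H12 H23 H34 a b + tri h s H12 H23 H34 b c = tri h s H12 H23 H34 a c := by
  unfold tri incr
  refine Prod.ext ?_ (Prod.ext ?_ ?_) <;> simp

lemma tri_self (h : ℕ) (s : Cell × ℤ) (H12 H23 H34 : ℤ × ℤ → ℂ) (a : ℤ) :
    tri h s H12 H23 H34 a a = 0 := by
  unfold tri incr
  refine Prod.ext ?_ (Prod.ext ?_ ?_) <;> simp

/-- telescoping: steps of length `2` -/
lemma tri_mem {h : ℕ} {s : Cell × ℤ} {H12 H23 H34 : ℤ × ℤ → ℂ} {V : Submodule ℝ (ℂ × ℂ × ℂ)}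
    {o : ℤ} {m : ℕ} : ∀ m' : ℕ, m ≤ m' →
    (∀ j : ℕ, m ≤ j → j < m' → tri h s H12 H23 H34 (2 * j + o) (2 * j + o + 2) ∈ V) →
    tri h s H12 H23 H34 (2 * m + o) (2 * m' + o) ∈ V := by
  intro m' hm
  induction m', hm using Nat.le_induction with
  | base => intro _; rw [tri_self]; exact V.zero_mem
  | succ k hk ih =>
    intro H
    have h1 := ih fun j a b => H j a (b.trans (Nat.lt_succ_self k))
    have h2 := H k hk (Nat.lt_succ_self k)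
    have := V.add_mem h1 h2
    rw [tri_add] at this
    have e : (2 * (k : ℤ) + o + 2) = 2 * ((k + 1 : ℕ) : ℤ) + o := by push_cast; ring
    rwa [e] at this

variable {P : PType} {hs : ℕ → ℕ} {H12 H23 H34 : ℕ → ℤ × ℤ → ℂ} {U : Ultrafilter ℕ}
  {g12 g23 g34 : ℂ → ℂ}

lemma isLim_incr {H : ℕ → ℤ × ℤ → ℂ} {g : ℂ → ℂ} (L : IsLim4 P hs H U g)
    (hhs : ∀ᶠ j in (U : Filter ℕ), 0 < hs j) {n : ℕ} {a b : ℕ → ℤ} {t t' : ℝ}
    (ht : t ∈ Icc (0 : ℝ) 1) (ht' : t' ∈ Icc (0 : ℝ) 1)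
    (ha : ∀ᶠ j in (U : Filter ℕ), 0 ≤ a j ∧ a j ≤ 2 * hs j)
    (hb : ∀ᶠ j in (U : Filter ℕ), 0 ≤ b j ∧ b j ≤ 2 * hs j)
    (hat : Tendsto (fun j => (a j : ℝ) / (2 * hs j)) U (𝓝 t))
    (hbt : Tendsto (fun j => (b j : ℝ) / (2 * hs j)) U (𝓝 t')) :
    Tendsto (fun j => (((2 * hs j : ℝ) ^ (-(2 / 3) : ℝ) : ℝ) : ℂ) *
      incr (hs j) (P.side n) (H j) (a j) (b j)) U
      (𝓝 (g (P.sidePt (fun i : ℤ => (i : ℝ)) (fun i : ℤ => (i : ℝ)) n t') -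
        g (P.sidePt (fun i : ℤ => (i : ℝ)) (fun i : ℤ => (i : ℝ)) n t))) := by
  have hx : StrictMono fun i : ℤ => (i : ℝ) := fun _ _ h => Int.cast_lt.2 h
  have key : ∀ {c : ℕ → ℤ} {τ : ℝ}, τ ∈ Icc (0 : ℝ) 1 →
      (∀ᶠ j in (U : Filter ℕ), 0 ≤ c j ∧ c j ≤ 2 * hs j) →
      Tendsto (fun j => (c j : ℝ) / (2 * hs j)) U (𝓝 τ) →
      Tendsto (fun j => nrm P (hs j) (H j) (wp (2 * hs j) (P.side n) (c j))) U
        (𝓝 (g (P.sidePt (fun i : ℤ => (i : ℝ)) (fun i : ℤ => (i : ℝ)) n τ))) := by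
    intro c τ hτ hc hct
    refine L.lim _ (Pool.Agent.Q1.M4.sidePt_mem hx hx P n hτ.1 hτ.2) _
      (hc.mono fun j h => inG_wp P (hs j) n h.1 h.2) ?_
    have := ((sidePt_continuous P n).tendsto τ).comp hct
    refine this.congr' ?_
    filter_upwards [hhs] with j hj
    exact (lat_wp P hj n (c j)).symm
  refine ((key ht' hb hbt).sub (key ht ha hat)).congr fun j => ?_
  unfold nrm incr
  ring

/-- The limit increments are in a closed real subspace. -/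
lemma lim_mem (L12 : IsLim4 P hs H12 U g12) (L23 : IsLim4 P hs H23 U g23)
    (L34 : IsLim4 P hs H34 U g34) (V : Submodule ℝ (ℂ × ℂ × ℂ))
    (hhs : ∀ᶠ j in (U : Filter ℕ), 0 < hs j) {n : ℕ} {a b : ℕ → ℤ} {t t' : ℝ}
    (ht : t ∈ Icc (0 : ℝ) 1) (ht' : t' ∈ Icc (0 : ℝ) 1)
    (ha : ∀ᶠ j in (U : Filter ℕ), 0 ≤ a j ∧ a j ≤ 2 * hs j)
    (hb : ∀ᶠ j in (U : Filter ℕ), 0 ≤ b j ∧ b j ≤ 2 * hs j)
    (hat : Tendsto (fun j => (a j : ℝ) / (2 * hs j)) U (𝓝 t))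
    (hbt : Tendsto (fun j => (b j : ℝ) / (2 * hs j)) U (𝓝 t'))
    (hV : ∀ᶠ j in (U : Filter ℕ), tri (hs j) (P.side n) (H12 j) (H23 j) (H34 j) (a j) (b j) ∈ V) :
    ((g23 (P.sidePt (fun i : ℤ => (i : ℝ)) (fun i : ℤ => (i : ℝ)) n t') -
        g23 (P.sidePt (fun i : ℤ => (i : ℝ)) (fun i : ℤ => (i : ℝ)) n t)),
      (g34 (P.sidePt (fun i : ℤ => (i : ℝ)) (fun i : ℤ => (i : ℝ)) n t') -
        g34 (P.sidePt (fun i : ℤ => (i : ℝ)) (fun i : ℤ => (i : ℝ)) n t)),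
      (g12 (P.sidePt (fun i : ℤ => (i : ℝ)) (fun i : ℤ => (i : ℝ)) n t') -
        g12 (P.sidePt (fun i : ℤ => (i : ℝ)) (fun i : ℤ => (i : ℝ)) n t))) ∈ V := by
  have hc : IsClosed (V : Set (ℂ × ℂ × ℂ)) := Submodule.closed_of_finiteDimensional V
  have h1 := (isLim_incr (n := n) L23 hhs ht ht' ha hb hat hbt).prodMk_nhds
    ((isLim_incr (n := n) L34 hhs ht ht' ha hb hat hbt).prodMk_nhds
      (isLim_incr (n := n) L12 hhs ht ht' ha hb hat hbt))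
  refine hc.mem_of_tendsto h1 ?_
  filter_upwards [hV] with j hj
  have := V.smul_mem ((2 * hs j : ℝ) ^ (-(2 / 3) : ℝ)) hj
  have e : ((2 * hs j : ℝ) ^ (-(2 / 3) : ℝ)) •
      tri (hs j) (P.side n) (H12 j) (H23 j) (H34 j) (a j) (b j) =
      ((((2 * hs j : ℝ) ^ (-(2 / 3) : ℝ) : ℝ) : ℂ) * incr (hs j) (P.side n) (H23 j) (a j) (b j),
        (((2 * hs j : ℝ) ^ (-(2 / 3) : ℝ) : ℝ) : ℂ) * incr (hs j) (P.side n) (H34 j) (a j) (b j),
        (((2 * hs j : ℝ) ^ (-(2 / 3) : ℝ) : ℝ) : ℂ) *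
          incr (hs j) (P.side n) (H12 j) (a j) (b j)) := by
    unfold tri
    refine Prod.ext ?_ (Prod.ext ?_ ?_) <;> simp
  rw [e] at this
  exact this

/-! ### Index sequences -/

lemma idx_tendsto (hhs : Tendsto hs U atTop) {c : ℕ → ℤ} {t : ℝ}
    (hc : ∀ᶠ j in (U : Filter ℕ), |(c j : ℝ) - t * (2 * hs j)| ≤ 3) :
    Tendsto (fun j => (c j : ℝ) / (2 * hs j)) U (𝓝 t) := by
  rw [tendsto_iff_norm_sub_tendsto_zero]
  have h1 : Tendsto (fun j => (3 : ℝ) / (2 * hs j)) U (𝓝 0) := by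
    refine Tendsto.div_atTop tendsto_const_nhds ?_
    exact Tendsto.const_mul_atTop (by norm_num) (tendsto_natCast_atTop_atTop.comp hhs)
  refine squeeze_zero' (Eventually.of_forall fun j => norm_nonneg _) ?_ h1
  filter_upwards [hc, hhs.eventually_gt_atTop 0] with j hj hpos
  have h2 : (0 : ℝ) < 2 * hs j := by positivity
  have e : (c j : ℝ) / (2 * hs j) - t = ((c j : ℝ) - t * (2 * hs j)) / (2 * hs j) := by
    field_simp
  rw [e, norm_div, Real.norm_eq_abs, Real.norm_eq_abs, abs_of_pos h2]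
  exact div_le_div_of_nonneg_right hj h2.le

lemma fl_bounds {t : ℝ} (ht : t ∈ Icc (0 : ℝ) 1) {h : ℕ} (_ : 0 < h) :
    (⌊t * h⌋₊ : ℝ) ≤ t * h ∧ t * h < ⌊t * h⌋₊ + 1 ∧ ⌊t * h⌋₊ ≤ h := by
  have h0 : 0 ≤ t * h := mul_nonneg ht.1 (Nat.cast_nonneg h)
  refine ⟨Nat.floor_le h0, Nat.lt_floor_add_one _, ?_⟩
  have : (⌊t * h⌋₊ : ℝ) ≤ h := by
    refine (Nat.floor_le h0).trans ?_
    have hp : (0 : ℝ) ≤ h := Nat.cast_nonneg h
    nlinarith [ht.2]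
  exact_mod_cast this

/-- even wall points -/
lemma lim_wired (L12 : IsLim4 P hs H12 U g12) (L23 : IsLim4 P hs H23 U g23)
    (L34 : IsLim4 P hs H34 U g34) (V : Submodule ℝ (ℂ × ℂ × ℂ)) (hhs : Tendsto hs U atTop) {n : ℕ}
    (hV : ∀ᶠ j in (U : Filter ℕ), ∀ i : ℕ, i < hs j →
      tri (hs j) (P.side n) (H12 j) (H23 j) (H34 j) (2 * i) (2 * i + 2) ∈ V) {t t' : ℝ}
    (h0 : 0 ≤ t) (h1 : t ≤ t') (h2 : t' ≤ 1) :
    ((g23 (P.sidePt (fun i : ℤ => (i : ℝ)) (fun i : ℤ => (i : ℝ)) n t') -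
        g23 (P.sidePt (fun i : ℤ => (i : ℝ)) (fun i : ℤ => (i : ℝ)) n t)),
      (g34 (P.sidePt (fun i : ℤ => (i : ℝ)) (fun i : ℤ => (i : ℝ)) n t') -
        g34 (P.sidePt (fun i : ℤ => (i : ℝ)) (fun i : ℤ => (i : ℝ)) n t)),
      (g12 (P.sidePt (fun i : ℤ => (i : ℝ)) (fun i : ℤ => (i : ℝ)) n t') -
        g12 (P.sidePt (fun i : ℤ => (i : ℝ)) (fun i : ℤ => (i : ℝ)) n t))) ∈ V := by
  have hpos : ∀ᶠ j in (U : Filter ℕ), 0 < hs j := hhs.eventually_gt_atTop 0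
  have ht : t ∈ Icc (0 : ℝ) 1 := ⟨h0, h1.trans h2⟩
  have ht' : t' ∈ Icc (0 : ℝ) 1 := ⟨h0.trans h1, h2⟩
  have bd : ∀ {τ : ℝ}, τ ∈ Icc (0 : ℝ) 1 → ∀ᶠ j in (U : Filter ℕ),
      (0 : ℤ) ≤ 2 * (⌊τ * hs j⌋₊ : ℤ) ∧ 2 * (⌊τ * hs j⌋₊ : ℤ) ≤ 2 * hs j := by
    intro τ hτ
    filter_upwards [hpos] with j hj
    have := (fl_bounds hτ hj).2.2
    exact ⟨by positivity, by omega⟩
  have lm : ∀ {τ : ℝ}, τ ∈ Icc (0 : ℝ) 1 →
      Tendsto (fun j => ((2 * (⌊τ * hs j⌋₊ : ℤ) : ℤ) : ℝ) / (2 * hs j)) U (𝓝 τ) := by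
    intro τ hτ
    refine idx_tendsto hhs ?_
    filter_upwards [hpos] with j hj
    obtain ⟨a1, a2, _⟩ := fl_bounds hτ hj
    push_cast
    rw [abs_le]
    constructor <;> nlinarith
  refine lim_mem L12 L23 L34 V hpos ht ht' (bd ht) (bd ht') (lm ht) (lm ht') ?_
  filter_upwards [hV, hpos] with j hj hj0
  have hm : ⌊t * hs j⌋₊ ≤ ⌊t' * hs j⌋₊ :=
    Nat.floor_mono (mul_le_mul_of_nonneg_right h1 (Nat.cast_nonneg _))
  have := tri_mem (o := 0) (V := V) (h := hs j) (s := P.side n) (H12 := H12 j) (H23 := H23 j)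
    (H34 := H34 j) (m := ⌊t * hs j⌋₊) ⌊t' * hs j⌋₊ hm (by
      intro i _ hi
      have h3 := (fl_bounds ht' hj0).2.2
      have := hj i (by omega)
      simpa using this)
  simpa using this

/-- odd wall points -/
lemma lim_free (L12 : IsLim4 P hs H12 U g12) (L23 : IsLim4 P hs H23 U g23)
    (L34 : IsLim4 P hs H34 U g34) (V : Submodule ℝ (ℂ × ℂ × ℂ)) (hhs : Tendsto hs U atTop) {n : ℕ}
    (hV : ∀ᶠ j in (U : Filter ℕ), ∀ i : ℕ, 1 ≤ i → i < hs j →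
      tri (hs j) (P.side n) (H12 j) (H23 j) (H34 j) (2 * i - 1) (2 * i + 1) ∈ V) {t t' : ℝ}
    (h0 : 0 ≤ t) (h1 : t ≤ t') (h2 : t' ≤ 1) :
    ((g23 (P.sidePt (fun i : ℤ => (i : ℝ)) (fun i : ℤ => (i : ℝ)) n t') -
        g23 (P.sidePt (fun i : ℤ => (i : ℝ)) (fun i : ℤ => (i : ℝ)) n t)),
      (g34 (P.sidePt (fun i : ℤ => (i : ℝ)) (fun i : ℤ => (i : ℝ)) n t') -
        g34 (P.sidePt (fun i : ℤ => (i : ℝ)) (fun i : ℤ => (i : ℝ)) n t)),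
      (g12 (P.sidePt (fun i : ℤ => (i : ℝ)) (fun i : ℤ => (i : ℝ)) n t') -
        g12 (P.sidePt (fun i : ℤ => (i : ℝ)) (fun i : ℤ => (i : ℝ)) n t))) ∈ V := by
  have hpos : ∀ᶠ j in (U : Filter ℕ), 0 < hs j := hhs.eventually_gt_atTop 0
  have ht : t ∈ Icc (0 : ℝ) 1 := ⟨h0, h1.trans h2⟩
  have ht' : t' ∈ Icc (0 : ℝ) 1 := ⟨h0.trans h1, h2⟩
  have bd : ∀ {τ : ℝ}, τ ∈ Icc (0 : ℝ) 1 → ∀ᶠ j in (U : Filter ℕ),
      (0 : ℤ) ≤ 2 * ((min ⌊τ * hs j⌋₊ (hs j - 1) : ℕ) : ℤ) + 1 ∧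
      2 * ((min ⌊τ * hs j⌋₊ (hs j - 1) : ℕ) : ℤ) + 1 ≤ 2 * hs j := by
    intro τ _
    filter_upwards [hpos] with j hj
    have := min_le_right ⌊τ * hs j⌋₊ (hs j - 1)
    exact ⟨by positivity, by omega⟩
  have lm : ∀ {τ : ℝ}, τ ∈ Icc (0 : ℝ) 1 →
      Tendsto (fun j => ((2 * ((min ⌊τ * hs j⌋₊ (hs j - 1) : ℕ) : ℤ) + 1 : ℤ) : ℝ) /
        (2 * hs j)) U (𝓝 τ) := by
    intro τ hτ
    refine idx_tendsto hhs ?_
    filter_upwards [hpos] with j hj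
    obtain ⟨a1, a2, a3⟩ := fl_bounds hτ hj
    have hmm : min ⌊τ * hs j⌋₊ (hs j - 1) = ⌊τ * hs j⌋₊ ∨
        (min ⌊τ * hs j⌋₊ (hs j - 1) = hs j - 1 ∧ ⌊τ * hs j⌋₊ = hs j) := by omega
    rcases hmm with e | ⟨e, e'⟩
    · rw [e]
      push_cast
      rw [abs_le]
      constructor <;> nlinarith
    · rw [e]
      rw [e'] at a1 a2
      have hc : (((hs j - 1 : ℕ) : ℤ) : ℝ) = hs j - 1 := by
        push_cast [Nat.cast_sub hj]
        rfl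
      push_cast at hc ⊢
      rw [hc, abs_le]
      constructor <;> nlinarith
  refine lim_mem L12 L23 L34 V hpos ht ht' (bd ht) (bd ht') (lm ht) (lm ht') ?_
  filter_upwards [hV, hpos] with j hj hj0
  have hm0 : ⌊t * hs j⌋₊ ≤ ⌊t' * hs j⌋₊ :=
    Nat.floor_mono (mul_le_mul_of_nonneg_right h1 (Nat.cast_nonneg _))
  have hm : min ⌊t * hs j⌋₊ (hs j - 1) ≤ min ⌊t' * hs j⌋₊ (hs j - 1) := min_le_min_right _ hm0
  exact tri_mem (o := 1) (V := V) (h := hs j) (s := P.side n) (H12 := H12 j) (H23 := H23 j)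
    (H34 := H34 j) _ hm (by
      intro i _ hi
      have h3 := min_le_right ⌊t' * hs j⌋₊ (hs j - 1)
      have := hj (i + 1) (by omega) (by omega)
      push_cast at this
      have e1 : 2 * ((i : ℤ) + 1) - 1 = 2 * i + 1 := by ring
      have e2 : 2 * ((i : ℤ) + 1) + 1 = 2 * i + 1 + 2 := by ring
      rwa [e1, e2] at this)

end Pool.Agent.H58.FM
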