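import Mathlib
import Pool.Agent.H58.FM.Data

set_option autoImplicit false
open Filter Topology Set

/-! # Four marks: `data4_of_lim` -/

namespace Pool.Agent.H58.FM

open Pool.Agent.H75.Perc (dir dir_cases)
open Pool.Agent.Q1 (ph ph_ne ph_add ph_rec ph_zero ph_one w6)
open Pool.Agent.Q1.M4 (Cell PType tail head Reg Om lat inV inRect pt phase IsSide)
open Pool.Agent.Q1.Dob (phase_eq)
open Pool.Agent.H33.Q1 (wp)
open Pool.Agent.H21.FM
open Pool.Agent.H19.RH (Data4 phase_two)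

lemma one_sub_ph2_ne : (1 : ℂ) - ph 2 ≠ 0 := by
  intro h
  have h1 := ph_rec 0
  norm_num at h1
  rw [ph_zero, ph_one] at h1
  rw [h1] at h
  have := congrArg Complex.re h
  simp [w6] at this
  norm_num at this

lemma w_eq : H87.FM.w = ph 2 := by
  rw [← phase_two, phase_eq]
  norm_num

lemma w_sq_eq : H87.FM.w ^ 2 = ph 4 := by
  rw [w_eq, pow_two, ← ph_add]
  norm_num

variable {hs : ℕ → ℕ} {H12 H23 H34 : ℕ → ℤ × ℤ → ℂ} {U : Ultrafilter ℕ}
  {g12 g23 g34 : ℂ → ℂ}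

lemma hold_mul {D : Set ℂ} {g : ℂ → ℂ} {κ : ℂ} (hκ : κ ≠ 0)
    (h : ∃ C > 0, ∃ r > 0, ∀ z ∈ D, ∀ z' ∈ D, ‖z - z'‖ ≤ r →
      ‖g z - g z'‖ ≤ C * ‖z - z'‖ ^ (2 / 3 : ℝ)) :
    ∃ C > 0, ∃ r > 0, ∀ z ∈ D, ∀ z' ∈ D, ‖z - z'‖ ≤ r →
      ‖κ * g z - κ * g z'‖ ≤ C * ‖z - z'‖ ^ (2 / 3 : ℝ) := by
  obtain ⟨C, hC, r, hr, hb⟩ := h
  refine ⟨‖κ‖ * C, mul_pos (norm_pos_iff.2 hκ) hC, r, hr, fun z hz z' hz' hd => ?_⟩
  rw [← mul_sub, norm_mul, mul_assoc]
  exact mul_le_mul_of_nonneg_left (hb z hz z' hz' hd) (norm_nonneg _)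

lemma mem3 {u1 u2 u3 v : ℂ × ℂ × ℂ} (h : v ∈ Submodule.span ℝ {u1, u2, u3}) :
    ∃ a b c : ℝ, a * u1.1 + b * u2.1 + c * u3.1 = v.1 ∧
      a * u1.2.1 + b * u2.2.1 + c * u3.2.1 = v.2.1 ∧
      a * u1.2.2 + b * u2.2.2 + c * u3.2.2 = v.2.2 := by
  obtain ⟨a, b, c, e⟩ := Submodule.mem_span_triple.1 h
  refine ⟨a, b, c, ?_, ?_, ?_⟩ <;> rw [← e] <;> simp

lemma mem3' {u1 u2 u3 v : ℂ × ℂ × ℂ} (a b c : ℝ) (h1 : a * u1.1 + b * u2.1 + c * u3.1 = v.1)
    (h2 : a * u1.2.1 + b * u2.2.1 + c * u3.2.1 = v.2.1)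
    (h3 : a * u1.2.2 + b * u2.2.2 + c * u3.2.2 = v.2.2) :
    v ∈ Submodule.span ℝ {u1, u2, u3} := by
  refine Submodule.mem_span_triple.2 ⟨a, b, c, Prod.ext ?_ (Prod.ext ?_ ?_)⟩
  · simpa using h1
  · simpa using h2
  · simpa using h3

/-- **The limits of the three primitives satisfy helper19's `Data4`.** -/
theorem data4_of_lim (S : Shape) (hhs : Tendsto hs U atTop)
    (L12 : IsLim4 S.P hs H12 U g12) (L23 : IsLim4 S.P hs H23 U g23)
    (L34 : IsLim4 S.P hs H34 U g34)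
    (hT : ∀ᶠ j in (U : Filter ℕ), Tab S (hs j) (H12 j) (H23 j) (H34 j)) :
    Data4 S.P (fun i : ℤ => (i : ℝ)) (fun i : ℤ => (i : ℝ)) S.m2 S.m3 S.m4
      (fun z => (1 - ph 2)⁻¹ * g12 z) (fun z => (1 - ph 2)⁻¹ * g23 z)
      (fun z => (1 - ph 2)⁻¹ * g34 z) := by
  have hκ : ((1 : ℂ) - ph 2)⁻¹ ≠ 0 := inv_ne_zero one_sub_ph2_ne
  have hc : ((1 : ℂ) - ph 2)⁻¹ * (1 - ph 2) = 1 := inv_mul_cancel₀ one_sub_ph2_ne
  refine ⟨S.h02, S.h23, S.h34, S.P.hmN, continuousOn_const.mul L12.cont, continuousOn_const.mul L23.cont,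
    continuousOn_const.mul L34.cont, L12.holo.const_mul _, L23.holo.const_mul _, L34.holo.const_mul _,
    hold_mul hκ L12.hold, hold_mul hκ L23.hold, hold_mul hκ L34.hold, ?_, ?_, ?_, ?_⟩
  · intro n hn t t' h0 h1 h2
    set K : ℂ := (1 - ph 2) * ph (S.k n) with hK
    have hV := lim_free L12 L23 L34
      (Submodule.span ℝ {(K, K, (0 : ℂ)), (K, K, K), ((0 : ℂ), K, K * ph 4)}) hhs (n := n) (by
        filter_upwards [hT] with j T i hi1 hi2
        obtain ⟨e1, e2, e3⟩ := T.one n hn i hi1 hi2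
        unfold tri
        rw [e1, e2, e3]
        refine mem3' (mA S (hs j) (wv (hs j) (S.P.side n) i)) (mC S (hs j) (wv (hs j) (S.P.side n) i))
          (mD S (hs j) (wv (hs j) (S.P.side n) i)) ?_ ?_ ?_ <;> simp only [hK] <;> push_cast <;>
          ring) h0 h1 h2
    obtain ⟨a, c, d, e1, e2, e3⟩ := mem3 hV
    refine ⟨a, c, d, ?_, ?_, ?_⟩
    · rw [phase_eq, show (S.P.side n).2 = S.k n from rfl, add_zero, ← mul_sub]
      simp only at e1
      rw [← e1, hK]
      linear_combination ((a + c) * ph (S.k n)) * hc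
    · rw [phase_eq, show (S.P.side n).2 = S.k n from rfl, add_zero, ← mul_sub]
      simp only at e2
      rw [← e2, hK]
      linear_combination ((a + c + d) * ph (S.k n)) * hc
    · rw [phase_eq, show (S.P.side n).2 = S.k n from rfl, add_zero, ← mul_sub, w_sq_eq]
      simp only at e3
      rw [← e3, hK]
      linear_combination ((c + ph 4 * d) * ph (S.k n)) * hc
  · intro n hn hn' t t' h0 h1 h2
    set K : ℂ := (1 - ph 2) * ph (S.k n - 1) with hK
    have hk : ph (S.k n + 1) = ph (S.k n - 1) * ph 2 := by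
      rw [← ph_add]; congr 1; ring
    have hV := lim_wired L12 L23 L34
      (Submodule.span ℝ {(K * ph 2, K * ph 2, (0 : ℂ)), (K, (0 : ℂ), K), ((0 : ℂ), K * ph 2, K)})
      hhs (n := n) (by
        filter_upwards [hT] with j T i hi
        obtain ⟨a, b, d, _, _, _, e1, e2, e3⟩ := T.two n hn hn' i hi
        unfold tri
        rw [e1, e2, e3, hk]
        refine mem3' a b d ?_ ?_ ?_ <;> simp only [hK] <;> ring) h0 h1 h2
    obtain ⟨a, b, d, e1, e2, e3⟩ := mem3 hV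
    refine ⟨a, b, d, ?_, ?_, ?_⟩
    · rw [phase_eq, show (S.P.side n).2 = S.k n from rfl, ← sub_eq_add_neg, ← mul_sub, w_eq]
      simp only at e1
      rw [← e1, hK]
      linear_combination ((ph 2 * a + b) * ph (S.k n - 1)) * hc
    · rw [phase_eq, show (S.P.side n).2 = S.k n from rfl, ← sub_eq_add_neg, ← mul_sub, w_eq]
      simp only at e2
      rw [← e2, hK]
      linear_combination ((ph 2 * (a + d)) * ph (S.k n - 1)) * hc
    · rw [phase_eq, show (S.P.side n).2 = S.k n from rfl, ← sub_eq_add_neg, ← mul_sub]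
      simp only at e3
      rw [← e3, hK]
      linear_combination ((b + d) * ph (S.k n - 1)) * hc
  · intro n hn hn' t t' h0 h1 h2
    set K : ℂ := (1 - ph 2) * ph (S.k n) with hK
    have hV := lim_free L12 L23 L34
      (Submodule.span ℝ {(K, (0 : ℂ), K), (K, K, K), ((0 : ℂ), K * ph 2, K)}) hhs (n := n) (by
        filter_upwards [hT] with j T i hi1 hi2
        obtain ⟨b, c, d, _, _, _, e1, e2, e3⟩ := T.three n hn hn' i hi1 hi2
        unfold tri
        rw [e1, e2, e3]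
        refine mem3' b c d ?_ ?_ ?_ <;> simp only [hK] <;> ring) h0 h1 h2
    obtain ⟨b, c, d, e1, e2, e3⟩ := mem3 hV
    refine ⟨b, c, d, ?_, ?_, ?_⟩
    · rw [phase_eq, show (S.P.side n).2 = S.k n from rfl, add_zero, ← mul_sub]
      simp only at e1
      rw [← e1, hK]
      linear_combination ((b + c) * ph (S.k n)) * hc
    · rw [phase_eq, show (S.P.side n).2 = S.k n from rfl, add_zero, ← mul_sub, w_eq]
      simp only at e2
      rw [← e2, hK]
      linear_combination ((c + ph 2 * d) * ph (S.k n)) * hc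
    · rw [phase_eq, show (S.P.side n).2 = S.k n from rfl, add_zero, ← mul_sub]
      simp only at e3
      rw [← e3, hK]
      linear_combination ((b + c + d) * ph (S.k n)) * hc
  · intro n hn hn' t t' h0 h1 h2
    set K : ℂ := (1 - ph 2) * ph (S.k n + 1) with hK
    have hV := lim_wired L12 L23 L34
      (Submodule.span ℝ {(K, K, (0 : ℂ)), (K, (0 : ℂ), K), (K, K, K)}) hhs (n := n) (by
        filter_upwards [hT] with j T i hi
        obtain ⟨a, b, c, _, _, _, e1, e2, e3⟩ := T.four n hn hn' i hi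
        unfold tri
        rw [e1, e2, e3]
        refine mem3' a b c ?_ ?_ ?_ <;> simp only [hK] <;> ring) h0 h1 h2
    obtain ⟨a, b, c, e1, e2, e3⟩ := mem3 hV
    refine ⟨a, b, c, ?_, ?_, ?_⟩
    · rw [phase_eq, show (S.P.side n).2 = S.k n from rfl, ← mul_sub]
      simp only at e1
      rw [← e1, hK]
      linear_combination ((a + b + c) * ph (S.k n + 1)) * hc
    · rw [phase_eq, show (S.P.side n).2 = S.k n from rfl, ← mul_sub]
      simp only at e2
      rw [← e2, hK]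
      linear_combination ((a + c) * ph (S.k n + 1)) * hc
    · rw [phase_eq, show (S.P.side n).2 = S.k n from rfl, ← mul_sub]
      simp only at e3
      rw [← e3, hK]
      linear_combination ((b + c) * ph (S.k n + 1)) * hc

end Pool.Agent.H58.FM
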