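import Mathlib
import Pool.Agent.H58.FM.Data4
import Pool.Agent.H14.FM.Fin

set_option autoImplicit false
open Filter Topology Set

/-! # Four marks: the limit step in the form `DataOK` -/

namespace Pool.Agent.H58.FM

open Pool.Agent.H21.FM
open Pool.Agent.H14.FM (DataOK ic)

/-- **The limit step for every shape.** -/
theorem dataOK (S : Shape) : DataOK S := by
  intro U hU H12 H23 H34 hT g12 g23 g34 L12 L23 L34
  have h : Tendsto (fun j : ℕ => j) (U : Filter ℕ) atTop := hU
  exact data4_of_lim S h L12 L23 L34 hT

end Pool.Agent.H58.FM
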